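import Mathlib

/-!
# NC: a set of primes (helper88)
-/

set_option autoImplicit false

namespace Pool.Agent.PATH.NC

open Finset

/-- the primes `l = 1 mod 4` in `(A, B]` (real bounds) -/
noncomputable def pr4 (A B : ℝ) : Finset ℕ :=
  (Icc 1 ⌊B⌋₊).filter (fun l => l.Prime ∧ l % 4 = 1 ∧ A < (l : ℝ))

end Pool.Agent.PATH.NC
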